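import Pool.Agent.Y851.JM.Stm

/-! Project JM (helper851), JM-MM: moments over a spread set of dilations. -/

set_option autoImplicit false

namespace Pool.Agent.Y837.JM

open Finset Filter Pool.Agent.Y851.JM

/-- the windows behind `x` -/
lemma PN_le {H x : ℝ} (_ : 0 < H) {J k : ℕ} (hJ : 3 * H ≤ J) (h1 : x - 3 * H ≤ k)
    (h2 : (k : ℝ) ≤ x - 2 * H) : PN H x ≤ pwc k J := by
  unfold PN pwc
  apply card_le_card
  intro q hq
  rw [mem_filter, mem_Icc] at hq
  rw [mem_filter, mem_Ioc]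
  obtain ⟨-, hq1, hq2, hq3⟩ := hq
  refine ⟨⟨?_, ?_⟩, hq1⟩
  · have : (k : ℝ) < q := by linarith
    exact_mod_cast this
  · have : (q : ℝ) < k + J := by linarith
    have h4 : q < k + J := by exact_mod_cast this
    exact h4.le

theorem t_MM (h : P_PM) : P_MM := by
  classical
  intro m K lam κ hlam hκ
  obtain ⟨C0, hC0, hev⟩ := h m K lam hlam
  have hC1 : 0 ≤ (4 * C0 + 1) / κ := by positivity
  refine ⟨(4 * C0 + 1) / κ + 1, by linarith, ?_⟩
  have e1 : ∀ᶠ X : ℝ in atTop, 2 / lam ≤ Real.log X :=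
    Real.tendsto_log_atTop.eventually_ge_atTop _
  have e2 : ∀ᶠ X : ℝ in atTop, 8 * 4 ^ m * Real.log X ^ (K + m) ≤ X := by
    have h1 := (Real.isLittleO_pow_log_id_atTop (n := K + m)).bound
      (c := 1 / (8 * 4 ^ m)) (by positivity)
    filter_upwards [h1, eventually_ge_atTop 1] with X hX h1
    have hl : 0 ≤ Real.log X := Real.log_nonneg h1
    simp only [id, Real.norm_eq_abs] at hX
    rw [abs_of_nonneg (by positivity), abs_of_nonneg (by linarith), div_mul_eq_mul_div, one_mul,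
      le_div_iff₀ (by positivity)] at hX
    linarith
  filter_upwards [hev, e1, e2, eventually_ge_atTop 1] with X hX h1 h2 h3
  intro B H θ hH1 hH2 hB Y hY hcard a ha1 ha2 ha3
  have hX0 : 0 < X := by linarith
  have hl2 : 2 ≤ lam * Real.log X := by
    rw [div_le_iff₀ hlam] at h1
    linarith
  have hl0 : 0 < Real.log X := by
    by_contra hn
    have : lam * Real.log X ≤ 0 := mul_nonpos_of_nonneg_of_nonpos hlam.le (not_lt.1 hn)
    linarith
  have hH : 2 ≤ H := by linarith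
  have hH0 : 0 < H := by linarith
  have ha0 : (0 : ℝ) < a := by exact_mod_cast ha1
  have hXθ : 0 < X ^ θ := Real.rpow_pos_of_pos hX0 θ
  have hXm : X ^ (θ - 1) = X ^ θ / X := by rw [Real.rpow_sub_one hX0.ne']
  have hH3 : 0 ≤ (H / Real.log X) ^ m := by positivity
  -- the two bounds of the cardinality
  have hc1 : ∀ u : ℝ, ((Y.filter (fun y => u ≤ y ∧ y ≤ u + H / a)).card : ℝ) ≤
      2 * B * H / κ / X * Y.card := by
    intro u
    refine (hcard u (H / a) (div_le_div_of_nonneg_left hH0.le ha0 ha3)).trans ?_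
    apply mul_le_mul_of_nonneg_right _ (Nat.cast_nonneg _)
    rw [hXm]
    have h4 : X ^ θ / a ≤ 1 / κ := by
      rw [div_le_div_iff₀ ha0 hκ]
      linarith
    calc 2 * B * (H / a) * (X ^ θ / X) = 2 * B * H / X * (X ^ θ / a) := by
          field_simp
      _ ≤ 2 * B * H / X * (1 / κ) := mul_le_mul_of_nonneg_left h4 (by positivity)
      _ = 2 * B * H / κ / X := by field_simp
  have hc2 : ((Y.filter (fun y => 0 ≤ y ∧ y ≤ 0 + 4 * H / a)).card : ℝ) ≤
      8 * B * H / κ / X * Y.card := by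
    refine (hcard 0 (4 * H / a) ?_).trans ?_
    · calc H / X ^ θ ≤ H / a := div_le_div_of_nonneg_left hH0.le ha0 ha3
        _ ≤ 4 * H / a := by
          apply div_le_div_of_nonneg_right _ ha0.le
          linarith
    apply mul_le_mul_of_nonneg_right _ (Nat.cast_nonneg _)
    rw [hXm]
    have h4 : X ^ θ / a ≤ 1 / κ := by
      rw [div_le_div_iff₀ ha0 hκ]
      linarith
    calc 2 * B * (4 * H / a) * (X ^ θ / X) = 8 * B * H / X * (X ^ θ / a) := by
          field_simp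
          ring
      _ ≤ 8 * B * H / X * (1 / κ) := mul_le_mul_of_nonneg_left h4 (by positivity)
      _ = 8 * B * H / κ / X := by field_simp
  set A := Y.filter (fun y => 3 * H + 1 ≤ a * y) with hA
  set R := Y.filter (fun y => ¬ 3 * H + 1 ≤ a * y) with hR
  have hsplit : ∑ y ∈ Y, (PN H (a * y) : ℝ) ^ m =
      ∑ y ∈ A, (PN H (a * y) : ℝ) ^ m + ∑ y ∈ R, (PN H (a * y) : ℝ) ^ m :=
    (sum_filter_add_sum_filter_not Y _ _).symm
  -- the large ones
  obtain ⟨J, hJ1, hJ2⟩ : ∃ J : ℕ, 3 * H ≤ J ∧ (J : ℝ) ≤ 4 * H :=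
    ⟨⌈3 * H⌉₊, Nat.le_ceil _, by
      have := Nat.ceil_lt_add_one (show 0 ≤ 3 * H by positivity)
      linarith⟩
  have hPM := hX H hH1 hH2 J hJ2
  have hone : ∀ y ∈ A, H / 2 * (PN H (a * y) : ℝ) ^ m ≤
      ∑ k ∈ Icc 1 ⌊X⌋₊, if (a * y - 3 * H ≤ (k : ℝ) ∧ (k : ℝ) ≤ a * y - 2 * H) then
        (pwc k J : ℝ) ^ m else 0 := by
    intro y hy
    rw [hA, mem_filter] at hy
    obtain ⟨hyY, hy1⟩ := hy
    have hyX : a * y ≤ X := by
      calc a * y ≤ X ^ θ * X ^ (1 - θ) :=
            mul_le_mul ha3 (hY y hyY).2 (hY y hyY).1.le hXθ.le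
        _ = X := by rw [← Real.rpow_add hX0]; simp
    rw [← sum_filter]
    have hsub : Icc ⌈a * y - 3 * H⌉₊ ⌊a * y - 2 * H⌋₊ ⊆ (Icc 1 ⌊X⌋₊).filter
        (fun k : ℕ => a * y - 3 * H ≤ (k : ℝ) ∧ (k : ℝ) ≤ a * y - 2 * H) := by
      intro k hk
      rw [mem_Icc] at hk
      have k1 : a * y - 3 * H ≤ (k : ℝ) := (Nat.le_ceil _).trans (by exact_mod_cast hk.1)
      have k2 : (k : ℝ) ≤ a * y - 2 * H :=
        le_trans (by exact_mod_cast hk.2) (Nat.floor_le (by linarith))
      rw [mem_filter, mem_Icc]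
      refine ⟨⟨?_, Nat.le_floor (by linarith)⟩, k1, k2⟩
      have : (1 : ℝ) ≤ k := by linarith
      exact_mod_cast this
    have hcardK : H / 2 ≤ ((Icc ⌈a * y - 3 * H⌉₊ ⌊a * y - 2 * H⌋₊).card : ℝ) := by
      rw [Nat.card_Icc]
      have k1 := Nat.ceil_lt_add_one (show 0 ≤ a * y - 3 * H by linarith)
      have k2 := Nat.lt_floor_add_one (a * y - 2 * H)
      have k3 : (⌊a * y - 2 * H⌋₊ : ℝ) + 1 - ⌈a * y - 3 * H⌉₊ ≤
          ((⌊a * y - 2 * H⌋₊ + 1 - ⌈a * y - 3 * H⌉₊ : ℕ) : ℝ) := by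
        rw [sub_le_iff_le_add]
        exact_mod_cast (by omega : ⌊a * y - 2 * H⌋₊ + 1 ≤
          (⌊a * y - 2 * H⌋₊ + 1 - ⌈a * y - 3 * H⌉₊) + ⌈a * y - 3 * H⌉₊)
      linarith
    calc H / 2 * (PN H (a * y) : ℝ) ^ m ≤
        ((Icc ⌈a * y - 3 * H⌉₊ ⌊a * y - 2 * H⌋₊).card : ℝ) * (PN H (a * y) : ℝ) ^ m :=
          mul_le_mul_of_nonneg_right hcardK (by positivity)
      _ = ∑ _k ∈ Icc ⌈a * y - 3 * H⌉₊ ⌊a * y - 2 * H⌋₊, (PN H (a * y) : ℝ) ^ m := by
          rw [sum_const, nsmul_eq_mul]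
      _ ≤ ∑ _k ∈ (Icc 1 ⌊X⌋₊).filter
          (fun k : ℕ => a * y - 3 * H ≤ (k : ℝ) ∧ (k : ℝ) ≤ a * y - 2 * H),
            (PN H (a * y) : ℝ) ^ m :=
          sum_le_sum_of_subset_of_nonneg hsub fun _ _ _ => by positivity
      _ ≤ _ := by
          refine sum_le_sum fun k hk => ?_
          rw [mem_filter] at hk
          have : (PN H (a * y) : ℝ) ≤ pwc k J := by
            exact_mod_cast PN_le hH0 hJ1 hk.2.1 hk.2.2
          exact pow_le_pow_left₀ (Nat.cast_nonneg _) this m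
  have hbig : H / 2 * ∑ y ∈ A, (PN H (a * y) : ℝ) ^ m ≤
      2 * B * H / κ / X * Y.card * (C0 * X * (H / Real.log X) ^ m) := by
    rw [mul_sum]
    refine (sum_le_sum hone).trans ?_
    rw [sum_comm]
    have hk : ∀ k ∈ Icc 1 ⌊X⌋₊, (∑ y ∈ A, if (a * y - 3 * H ≤ (k : ℝ) ∧ (k : ℝ) ≤ a * y - 2 * H)
        then (pwc k J : ℝ) ^ m else 0) ≤ 2 * B * H / κ / X * Y.card * (pwc k J : ℝ) ^ m := by
      intro k _
      rw [← sum_filter, sum_const, nsmul_eq_mul]
      apply mul_le_mul_of_nonneg_right _ (by positivity)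
      refine le_trans ?_ (hc1 ((k + 2 * H) / a))
      have : (A.filter (fun y => a * y - 3 * H ≤ (k : ℝ) ∧ (k : ℝ) ≤ a * y - 2 * H)) ⊆
          Y.filter (fun y => (k + 2 * H) / a ≤ y ∧ y ≤ (k + 2 * H) / a + H / a) := by
        intro y hy
        rw [mem_filter, hA, mem_filter] at hy
        rw [mem_filter]
        refine ⟨hy.1.1, ?_, ?_⟩
        · rw [div_le_iff₀ ha0]
          linarith [hy.2.2]
        · rw [← add_div, le_div_iff₀ ha0]
          linarith [hy.2.1]
      exact_mod_cast card_le_card this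
    refine (sum_le_sum hk).trans ?_
    rw [← mul_sum]
    exact mul_le_mul_of_nonneg_left hPM (by positivity)
  have hbig2 : ∑ y ∈ A, (PN H (a * y) : ℝ) ^ m ≤
      4 * C0 / κ * B * (H / Real.log X) ^ m * Y.card := by
    have h5 : 2 * B * H / κ / X * Y.card * (C0 * X * (H / Real.log X) ^ m) =
        H / 2 * (4 * C0 / κ * B * (H / Real.log X) ^ m * Y.card) := by
      field_simp
      ring
    rw [h5] at hbig
    exact le_of_mul_le_mul_left hbig (by positivity)
  -- the small ones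
  have hsmall : ∑ y ∈ R, (PN H (a * y) : ℝ) ^ m ≤ 1 / κ * B * (H / Real.log X) ^ m * Y.card := by
    have h5 : ∀ y ∈ R, (PN H (a * y) : ℝ) ^ m ≤ (4 * H) ^ m := by
      intro y hy
      rw [hR, mem_filter] at hy
      have hy0 := (hY y hy.1).1
      apply pow_le_pow_left₀ (Nat.cast_nonneg _)
      have h6 : PN H (a * y) ≤ ⌊a * y⌋₊ := by
        unfold PN
        refine (card_filter_le _ _).trans ?_
        rw [Nat.card_Icc]
        omega
      have h7 : (⌊a * y⌋₊ : ℝ) ≤ a * y := Nat.floor_le (by positivity)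
      have h8 : (PN H (a * y) : ℝ) ≤ ⌊a * y⌋₊ := by exact_mod_cast h6
      have h9 := not_le.1 hy.2
      linarith
    have h6 : (R.card : ℝ) ≤ 8 * B * H / κ / X * Y.card := by
      refine le_trans ?_ hc2
      have : R ⊆ Y.filter (fun y => 0 ≤ y ∧ y ≤ 0 + 4 * H / a) := by
        intro y hy
        rw [hR, mem_filter] at hy
        rw [mem_filter]
        refine ⟨hy.1, (hY y hy.1).1.le, ?_⟩
        rw [zero_add, le_div_iff₀ ha0]
        have h9 := not_le.1 hy.2
        linarith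
      exact_mod_cast card_le_card this
    calc ∑ y ∈ R, (PN H (a * y) : ℝ) ^ m ≤ ∑ _y ∈ R, (4 * H) ^ m := sum_le_sum h5
      _ = R.card * (4 * H) ^ m := by rw [sum_const, nsmul_eq_mul]
      _ ≤ (8 * B * H / κ / X * Y.card) * (4 * H) ^ m :=
          mul_le_mul_of_nonneg_right h6 (by positivity)
      _ = (B / κ * Y.card * H ^ m) * ((8 * 4 ^ m * H) / X) := by
          rw [mul_pow]
          field_simp
      _ ≤ (B / κ * Y.card * H ^ m) * (1 / Real.log X ^ m) := by
          apply mul_le_mul_of_nonneg_left _ (by positivity)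
          rw [div_le_div_iff₀ hX0 (by positivity), one_mul]
          calc 8 * 4 ^ m * H * Real.log X ^ m ≤ 8 * 4 ^ m * Real.log X ^ K * Real.log X ^ m := by
                gcongr
            _ = 8 * 4 ^ m * Real.log X ^ (K + m) := by rw [pow_add]; ring
            _ ≤ X := h2
      _ = 1 / κ * B * (H / Real.log X) ^ m * Y.card := by
          rw [div_pow]
          field_simp
  rw [hsplit]
  have h7 : 0 ≤ B * (H / Real.log X) ^ m * Y.card := by positivity
  calc _ ≤ 4 * C0 / κ * B * (H / Real.log X) ^ m * Y.card +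
        1 / κ * B * (H / Real.log X) ^ m * Y.card := add_le_add hbig2 hsmall
    _ = (4 * C0 + 1) / κ * (B * (H / Real.log X) ^ m * Y.card) := by
        field_simp
    _ ≤ ((4 * C0 + 1) / κ + 1) * (B * (H / Real.log X) ^ m * Y.card) := by
        apply mul_le_mul_of_nonneg_right _ h7
        linarith
    _ = _ := by ring

end Pool.Agent.Y837.JM
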